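import Mathlib

set_option autoImplicit false

namespace Pool.Agent.Lib.MP_73faae_nt.GordonMatrix

/-- Kept for the record only: examples of this kind are known (Guy, F28). -/
theorem example_matrix :
    ∃ A : Matrix (Fin 3) (Fin 3) ℤ, A = !![2, 3, 2; 5, 6, 3; 9, 10, 4] ∧
      (∀ i j, A i j ≠ 0 ∧ A i j ≠ 1 ∧ A i j ≠ -1) ∧
      A.det = 1 ∧ (A.map (fun x => x ^ 2)).det = 1 := by
  refine ⟨!![2, 3, 2; 5, 6, 3; 9, 10, 4], rfl, ?_, ?_, ?_⟩
  · intro i j
    fin_cases i <;> fin_cases j <;> simp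
  · rw [Matrix.det_fin_three]
    simp
  · rw [Matrix.det_fin_three]
    simp

end Pool.Agent.Lib.MP_73faae_nt.GordonMatrix
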